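import Pool.Agent.Y766.R3.Stm

set_option autoImplicit false

/-!
Job R3-PHI: `χ(n + p^m l) conj χ(n)` is almost an additive character.
-/

namespace Pool.Agent.Y870.R3

open Finset
open Pool.Agent.Y766.R3

theorem isUnit_int {p : ℕ} (hp : p.Prime) (k : ℕ) {a : ℤ} (ha : ¬ (p : ℤ) ∣ a) :
    IsUnit ((a : ℤ) : ZMod (p ^ k)) := by
  rw [ZMod.coe_int_isUnit_iff_isCoprime]
  push_cast
  apply IsCoprime.pow_left
  exact ((Nat.prime_iff_prime_int.1 hp).coprime_iff_not_dvd).2 ha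

theorem not_dvd_one_add {p m : ℕ} (hp : p.Prime) (hm : 1 ≤ m) (a : ℤ) :
    ¬ (p : ℤ) ∣ 1 + (p : ℤ) ^ m * a := by
  intro h
  have h1 : (p : ℤ) ∣ (p : ℤ) ^ m * a := (dvd_pow_self _ (by omega)).mul_right _
  have h2 : (p : ℤ) ∣ 1 := by
    have := dvd_sub h h1
    simpa using this
  exact (Nat.prime_iff_prime_int.1 hp).not_dvd_one h2

theorem norm_unit {q : ℕ} (χ : DirichletCharacter ℂ q) {a : ZMod q} (ha : IsUnit a) :
    ‖χ a‖ = 1 := by
  obtain ⟨u, rfl⟩ := ha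
  exact DirichletCharacter.unit_norm_eq_one χ u

theorem mul_conj_unit {q : ℕ} (χ : DirichletCharacter ℂ q) {a : ZMod q} (ha : IsUnit a) :
    χ a * (starRingEnd ℂ) (χ a) = 1 := by
  rw [Complex.mul_conj, Complex.normSq_eq_norm_sq, norm_unit χ ha]
  simp

/-- the function `Ψ` on the integers -/
noncomputable def PS {q : ℕ} (χ : DirichletCharacter ℂ q) (P v : ℤ) : ℂ :=
  χ ((1 + P * v : ℤ) : ZMod q) * (starRingEnd ℂ) (χ ((1 - P * v : ℤ) : ZMod q))

section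

variable {p ν m : ℕ} (hp : p.Prime) (hm : 1 ≤ m) (hν : m < ν) (χ : DirichletCharacter ℂ (p ^ ν))

include hν in
theorem cast_eq_of_dvd {a b c : ℤ} (h : a - b = (p : ℤ) ^ m * c) (hc : (p : ℤ) ^ (ν - m) ∣ c) :
    ((a : ℤ) : ZMod (p ^ ν)) = ((b : ℤ) : ZMod (p ^ ν)) := by
  rw [ZMod.intCast_eq_intCast_iff_dvd_sub]
  have h1 : ((p ^ ν : ℕ) : ℤ) = (p : ℤ) ^ m * (p : ℤ) ^ (ν - m) := by
    push_cast
    rw [← pow_add]
    congr 1
    omega
  rw [h1]
  have h2 : b - a = (p : ℤ) ^ m * (-c) := by rw [mul_neg, ← h]; ring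
  rw [h2]
  exact mul_dvd_mul_left _ (hc.neg_right)

include hp hm in
theorem norm_PS (v : ℤ) : ‖PS χ ((p : ℤ) ^ m) v‖ = 1 := by
  unfold PS
  rw [norm_mul, RCLike.norm_conj, norm_unit χ (isUnit_int hp ν (not_dvd_one_add hp hm v))]
  have : (1 - (p : ℤ) ^ m * v) = 1 + (p : ℤ) ^ m * (-v) := by ring
  rw [this, norm_unit χ (isUnit_int hp ν (not_dvd_one_add hp hm (-v))), one_mul]

include hν in
theorem PS_congr {a b : ℤ} (h : (p : ℤ) ^ (ν - m) ∣ a - b) :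
    PS χ ((p : ℤ) ^ m) a = PS χ ((p : ℤ) ^ m) b := by
  unfold PS
  rw [cast_eq_of_dvd hν (a := 1 + (p : ℤ) ^ m * a) (b := 1 + (p : ℤ) ^ m * b) (c := a - b)
    (by ring) h,
    cast_eq_of_dvd hν (a := 1 - (p : ℤ) ^ m * a) (b := 1 - (p : ℤ) ^ m * b) (c := -(a - b))
    (by ring) h.neg_right]

include hp hm hν in
theorem PS_mul {a b c : ℤ}
    (h : (p : ℤ) ^ (ν - m) ∣ a + b - c * (1 + (p : ℤ) ^ (2 * m) * (a * b))) :
    PS χ ((p : ℤ) ^ m) a * PS χ ((p : ℤ) ^ m) b = PS χ ((p : ℤ) ^ m) c := by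
  have e2 : (p : ℤ) ^ (2 * m) = (p : ℤ) ^ m * (p : ℤ) ^ m := by rw [two_mul, pow_add]
  have h1 : χ ((1 + (p : ℤ) ^ m * a : ℤ) : ZMod (p ^ ν)) *
      χ ((1 + (p : ℤ) ^ m * b : ℤ) : ZMod (p ^ ν)) =
      χ ((1 + (p : ℤ) ^ (2 * m) * (a * b) : ℤ) : ZMod (p ^ ν)) *
      χ ((1 + (p : ℤ) ^ m * c : ℤ) : ZMod (p ^ ν)) := by
    rw [← map_mul, ← map_mul, ← Int.cast_mul, ← Int.cast_mul]
    congr 1
    apply cast_eq_of_dvd hν _ h
    rw [e2]
    ring
  have h2 : χ ((1 - (p : ℤ) ^ m * a : ℤ) : ZMod (p ^ ν)) *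
      χ ((1 - (p : ℤ) ^ m * b : ℤ) : ZMod (p ^ ν)) =
      χ ((1 + (p : ℤ) ^ (2 * m) * (a * b) : ℤ) : ZMod (p ^ ν)) *
      χ ((1 - (p : ℤ) ^ m * c : ℤ) : ZMod (p ^ ν)) := by
    rw [← map_mul, ← map_mul, ← Int.cast_mul, ← Int.cast_mul]
    congr 1
    apply cast_eq_of_dvd hν _ h.neg_right
    rw [e2]
    ring
  have h3 := mul_conj_unit χ (isUnit_int hp ν (not_dvd_one_add hp (by omega : 1 ≤ 2 * m) (a * b)))
  unfold PS
  calc χ ((1 + (p : ℤ) ^ m * a : ℤ) : ZMod (p ^ ν)) *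
        (starRingEnd ℂ) (χ ((1 - (p : ℤ) ^ m * a : ℤ) : ZMod (p ^ ν))) *
      (χ ((1 + (p : ℤ) ^ m * b : ℤ) : ZMod (p ^ ν)) *
        (starRingEnd ℂ) (χ ((1 - (p : ℤ) ^ m * b : ℤ) : ZMod (p ^ ν)))) =
      (χ ((1 + (p : ℤ) ^ m * a : ℤ) : ZMod (p ^ ν)) *
        χ ((1 + (p : ℤ) ^ m * b : ℤ) : ZMod (p ^ ν))) *
      (starRingEnd ℂ) (χ ((1 - (p : ℤ) ^ m * a : ℤ) : ZMod (p ^ ν)) *
        χ ((1 - (p : ℤ) ^ m * b : ℤ) : ZMod (p ^ ν))) := by rw [map_mul]; ring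
    _ = (χ ((1 + (p : ℤ) ^ (2 * m) * (a * b) : ℤ) : ZMod (p ^ ν)) *
      (starRingEnd ℂ) (χ ((1 + (p : ℤ) ^ (2 * m) * (a * b) : ℤ) : ZMod (p ^ ν)))) *
      (χ ((1 + (p : ℤ) ^ m * c : ℤ) : ZMod (p ^ ν)) *
      (starRingEnd ℂ) (χ ((1 - (p : ℤ) ^ m * c : ℤ) : ZMod (p ^ ν)))) := by
        rw [h1, h2, map_mul]; ring
    _ = _ := by rw [h3, one_mul]

/-- the function `Φ` -/
noncomputable def PH (m : ℕ) {p ν : ℕ} (χ : DirichletCharacter ℂ (p ^ ν)) (r : ℕ)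
    (y : ZMod (p ^ r)) : ℂ := PS χ ((p : ℤ) ^ m) (y.val : ℤ)

include hν in
theorem PH_int [NeZero (p ^ (ν - m))] (v : ℤ) :
    PH m χ (ν - m) ((v : ℤ) : ZMod (p ^ (ν - m))) = PS χ ((p : ℤ) ^ m) v := by
  unfold PH
  apply PS_congr hν
  rw [ZMod.val_intCast]
  have h := Int.emod_add_mul_ediv v ((p ^ (ν - m) : ℕ) : ℤ)
  refine ⟨-(v / ((p ^ (ν - m) : ℕ) : ℤ)), ?_⟩
  push_cast at h ⊢
  linarith

include hp hm hν in
theorem FF_eq [NeZero (p ^ (ν - m))] (hp2 : p ≠ 2) (l n : ℤ) :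
    FF χ ((p : ℤ) ^ m * l) n = if (p : ℤ) ∣ n then 0 else
      PH m χ (ν - m) ((l : ZMod (p ^ (ν - m))) *
        ((2 * n + (p : ℤ) ^ m * l : ℤ) : ZMod (p ^ (ν - m)))⁻¹) := by
  have hpi := Nat.prime_iff_prime_int.1 hp
  split_ifs with hn
  · unfold FF
    have h1 : ¬ IsUnit ((n : ℤ) : ZMod (p ^ ν)) := by
      rw [ZMod.coe_int_isUnit_iff_isCoprime]
      push_cast
      intro h
      have h2 : IsCoprime (p : ℤ) n := (IsCoprime.pow_left_iff (by omega)).1 h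
      exact ((hpi).coprime_iff_not_dvd.1 h2) hn
    rw [MulChar.map_nonunit χ h1, map_zero, mul_zero]
  · set X : ℤ := 2 * n + (p : ℤ) ^ m * l with hX
    have hXp : ¬ (p : ℤ) ∣ X := by
      intro h
      have h1 : (p : ℤ) ∣ (p : ℤ) ^ m * l := (dvd_pow_self _ (by omega)).mul_right _
      have h2 : (p : ℤ) ∣ 2 * n := by
        have := dvd_sub h h1
        rw [hX] at this
        simpa using this
      rcases hpi.dvd_or_dvd h2 with h3 | h3
      · have h4 : p ∣ 2 := by exact_mod_cast h3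
        exact hp2 ((Nat.prime_dvd_prime_iff_eq hp Nat.prime_two).1 h4)
      · exact hn h3
    -- an inverse of `X`
    have hcop : IsCoprime X ((p : ℤ) ^ ν) := by
      have := (ZMod.coe_int_isUnit_iff_isCoprime X (p ^ ν)).1 (isUnit_int hp ν hXp)
      push_cast at this
      exact this.symm
    obtain ⟨w, s, hws⟩ := hcop
    have hwr : ((w : ℤ) : ZMod (p ^ (ν - m))) = ((X : ℤ) : ZMod (p ^ (ν - m)))⁻¹ := by
      have hu : IsUnit ((X : ℤ) : ZMod (p ^ (ν - m))) := isUnit_int hp _ hXp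
      have h1 : ((w : ℤ) : ZMod (p ^ (ν - m))) * ((X : ℤ) : ZMod (p ^ (ν - m))) = 1 := by
        rw [← Int.cast_mul]
        have h2 : w * X = 1 - s * (p : ℤ) ^ ν := by linarith
        rw [h2]
        have h3 : (p : ℤ) ^ ν = (p : ℤ) ^ m * (p : ℤ) ^ (ν - m) := by
          rw [← pow_add]; congr 1; omega
        rw [h3]
        push_cast
        have h4 : ((p : ZMod (p ^ (ν - m)))) ^ (ν - m) = 0 := by
          have := ZMod.natCast_self (p ^ (ν - m))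
          push_cast at this
          exact this
        rw [h4]
        ring
      calc ((w : ℤ) : ZMod (p ^ (ν - m))) =
          ((w : ℤ) : ZMod (p ^ (ν - m))) * (((X : ℤ) : ZMod (p ^ (ν - m))) *
            ((X : ℤ) : ZMod (p ^ (ν - m)))⁻¹) := by
            rw [ZMod.mul_inv_of_unit _ hu, mul_one]
        _ = ((X : ℤ) : ZMod (p ^ (ν - m)))⁻¹ := by rw [← mul_assoc, h1, one_mul]
    rw [← hwr, ← Int.cast_mul, PH_int hν]
    -- the identity modulo `p ^ ν`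
    have hwp : ¬ (p : ℤ) ∣ w := by
      intro h
      have h1 : (p : ℤ) ∣ s * (p : ℤ) ^ ν := (dvd_pow_self _ (by omega)).mul_left _
      have h2 : (p : ℤ) ∣ 1 := by
        rw [← hws]
        exact dvd_add (h.mul_right _) h1
      exact hpi.not_dvd_one h2
    have h2w : ¬ (p : ℤ) ∣ 2 * w := by
      intro h
      rcases hpi.dvd_or_dvd h with h3 | h3
      · have h4 : p ∣ 2 := by exact_mod_cast h3
        exact hp2 ((Nat.prime_dvd_prime_iff_eq hp Nat.prime_two).1 h4)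
      · exact hwp h3
    have hpn : ((p ^ ν : ℕ) : ZMod (p ^ ν)) = 0 := ZMod.natCast_self _
    have hpn' : ((p : ZMod (p ^ ν))) ^ ν = 0 := by push_cast at hpn; exact hpn
    have hws' : ((w : ℤ) : ZMod (p ^ ν)) * ((X : ℤ) : ZMod (p ^ ν)) = 1 := by
      have := congrArg (fun z : ℤ => ((z : ℤ) : ZMod (p ^ ν))) hws
      push_cast at this
      rw [hpn', mul_zero, add_zero] at this
      exact this
    have hX' : ((X : ℤ) : ZMod (p ^ ν)) = 2 * n + (p : ZMod (p ^ ν)) ^ m * l := by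
      rw [hX]; push_cast; ring
    rw [hX'] at hws'
    have e1 : ((1 + (p : ℤ) ^ m * (l * w) : ℤ) : ZMod (p ^ ν)) =
        ((2 * w : ℤ) : ZMod (p ^ ν)) * ((n + (p : ℤ) ^ m * l : ℤ) : ZMod (p ^ ν)) := by
      push_cast
      calc 1 + (p : ZMod (p ^ ν)) ^ m * (l * w) =
          (w * (2 * n + (p : ZMod (p ^ ν)) ^ m * l)) + (p : ZMod (p ^ ν)) ^ m * (l * w) := by
            rw [hws']
        _ = _ := by ring
    have e2 : ((1 - (p : ℤ) ^ m * (l * w) : ℤ) : ZMod (p ^ ν)) =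
        ((2 * w : ℤ) : ZMod (p ^ ν)) * ((n : ℤ) : ZMod (p ^ ν)) := by
      push_cast
      calc 1 - (p : ZMod (p ^ ν)) ^ m * (l * w) =
          (w * (2 * n + (p : ZMod (p ^ ν)) ^ m * l)) - (p : ZMod (p ^ ν)) ^ m * (l * w) := by
            rw [hws']
        _ = _ := by ring
    unfold PS FF
    rw [e1, e2, map_mul, map_mul, map_mul]
    have h3 := mul_conj_unit χ (isUnit_int hp ν h2w)
    calc χ ((n + (p : ℤ) ^ m * l : ℤ) : ZMod (p ^ ν)) * (starRingEnd ℂ) (χ ((n : ℤ) : ZMod (p ^ ν)))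
        = 1 * (χ ((n + (p : ℤ) ^ m * l : ℤ) : ZMod (p ^ ν)) *
          (starRingEnd ℂ) (χ ((n : ℤ) : ZMod (p ^ ν)))) := by rw [one_mul]
      _ = _ := by rw [← h3]; ring

end

/-- additive characters of `ZMod n` -/
theorem exists_char {n : ℕ} [NeZero n] (g : AddChar (ZMod n) ℂ) :
    ∃ c : ZMod n, ∀ z, g z = ZMod.stdAddChar (c * z) := by
  have hinj : Function.Injective (fun c : ZMod n => AddChar.mulShift (ZMod.stdAddChar (N := n)) c) :=
    AddChar.to_mulShift_inj_of_isPrimitive (ZMod.isPrimitive_stdAddChar n)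
  haveI : Fintype (AddChar (ZMod n) ℂ) := Fintype.ofFinite _
  have hb : Function.Bijective
      (fun c : ZMod n => AddChar.mulShift (ZMod.stdAddChar (N := n)) c) := by
    rw [Fintype.bijective_iff_injective_and_card]
    refine ⟨hinj, ?_⟩
    have := AddChar.card_eq (α := ZMod n)
    convert this.symm
  obtain ⟨c, hc⟩ := hb.2 g
  refine ⟨c, fun z => ?_⟩
  rw [← hc]
  rfl

theorem char_eq_zero {n : ℕ} [NeZero n] {c : ZMod n}
    (h : ∀ z, ZMod.stdAddChar (c * z) = (1 : ℂ)) : c = 0 := by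
  have hinj : Function.Injective (fun c : ZMod n => AddChar.mulShift (ZMod.stdAddChar (N := n)) c) :=
    AddChar.to_mulShift_inj_of_isPrimitive (ZMod.isPrimitive_stdAddChar n)
  apply hinj
  ext z
  change ZMod.stdAddChar (c * z) = ZMod.stdAddChar (0 * z)
  rw [h z, zero_mul, AddChar.map_zero_eq_one]

theorem not_prim {p ν : ℕ} (hp : p.Prime) (hp2 : p ≠ 2) (hν : 2 ≤ ν)
    (χ : DirichletCharacter ℂ (p ^ ν)) (hχ : χ.IsPrimitive)
    (h : PS χ ((p : ℤ) ^ (ν - 1)) 1 = 1) : False := by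
  haveI : NeZero (p ^ ν) := ⟨pow_ne_zero _ hp.ne_zero⟩
  set x : ZMod (p ^ ν) := (p : ZMod (p ^ ν)) ^ (ν - 1) with hx
  have hpn' : ((p : ZMod (p ^ ν))) ^ ν = 0 := by
    have hpn : ((p ^ ν : ℕ) : ZMod (p ^ ν)) = 0 := ZMod.natCast_self _
    push_cast at hpn; exact hpn
  have hxx : x * x = 0 := by
    rw [hx, ← pow_add]
    have : ν - 1 + (ν - 1) = ν + (ν - 2) := by omega
    rw [this, pow_add, hpn', zero_mul]
  have hpx : (p : ZMod (p ^ ν)) * x = 0 := by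
    rw [hx, ← pow_succ']
    have : ν - 1 + 1 = ν := by omega
    rw [this, hpn']
  -- `χ(1 + 2x) = 1`
  have h1 : χ (1 + 2 * x) = 1 := by
    have e1 : ((1 + (p : ℤ) ^ (ν - 1) * 1 : ℤ) : ZMod (p ^ ν)) = 1 + x := by
      rw [hx]; push_cast; ring
    have e2 : ((1 - (p : ℤ) ^ (ν - 1) * 1 : ℤ) : ZMod (p ^ ν)) = 1 - x := by
      rw [hx]; push_cast; ring
    unfold PS at h
    rw [e1, e2] at h
    have e3 : (1 + x) * (1 - x) = 1 := by ring_nf; rw [sq, hxx]; ring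
    have e4 : χ (1 + x) * χ (1 - x) = 1 := by rw [← map_mul, e3, map_one]
    have hu : IsUnit (1 - x) := IsUnit.of_mul_eq_one (1 + x) (by rw [mul_comm]; exact e3)
    have e5 := mul_conj_unit χ hu
    have e6 : (starRingEnd ℂ) (χ (1 - x)) = χ (1 + x) := by
      have hne : χ (1 - x) ≠ 0 := by
        intro h0
        rw [h0, zero_mul] at e5
        exact zero_ne_one e5
      apply mul_left_cancel₀ hne
      rw [e5, mul_comm, e4]
    rw [e6, ← map_mul] at h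
    have e7 : (1 + x) * (1 + x) = 1 + 2 * x := by ring_nf; rw [sq, hxx]; ring
    rw [e7] at h
    exact h
  -- `χ(1 + 2 c x) = 1` for natural numbers `c`
  have h2 : ∀ c : ℕ, χ (1 + 2 * c * x) = 1 := by
    intro c
    induction c with
    | zero => simp
    | succ c ih =>
      have e : (1 + 2 * ((c + 1 : ℕ) : ZMod (p ^ ν)) * x) = (1 + 2 * c * x) * (1 + 2 * x) := by
        push_cast
        have : (1 + 2 * (c : ZMod (p ^ ν)) * x) * (1 + 2 * x) =
            1 + 2 * (c + 1) * x + 4 * c * (x * x) := by ring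
        rw [this, hxx]
        ring
      rw [e, map_mul, ih, h1, one_mul]
  -- `χ(1 + t x) = 1` for all integers `t`
  have h3 : ∀ t : ZMod (p ^ ν), χ (1 + t * x) = 1 := by
    intro t
    obtain ⟨k, hk⟩ : ∃ k : ℕ, p = 2 * k + 1 := by
      rcases hp.eq_two_or_odd' with h | h
      · exact absurd h hp2
      · obtain ⟨k, hk⟩ := h
        exact ⟨k, hk⟩
    have hkx : 2 * ((k + 1 : ℕ) : ZMod (p ^ ν)) * x = x := by
      have e1 : (2 * ((k + 1 : ℕ) : ZMod (p ^ ν))) = (p : ZMod (p ^ ν)) + 1 := by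
        have : (2 * (k + 1) : ℕ) = p + 1 := by omega
        have := congrArg (fun n : ℕ => (n : ZMod (p ^ ν))) this
        push_cast at this ⊢
        exact this
      rw [e1, add_mul, hpx, zero_add, one_mul]
    have := h2 ((k + 1) * t.val)
    have e2 : (1 + 2 * (((k + 1) * t.val : ℕ) : ZMod (p ^ ν)) * x) = 1 + t * x := by
      rw [Nat.cast_mul, ZMod.natCast_val, ZMod.cast_id]
      calc 1 + 2 * (((k + 1 : ℕ) : ZMod (p ^ ν)) * t) * x =
          1 + t * (2 * ((k + 1 : ℕ) : ZMod (p ^ ν)) * x) := by ring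
        _ = 1 + t * x := by rw [hkx]
    rwa [e2] at this
  have hd : p ^ (ν - 1) ∣ p ^ ν := pow_dvd_pow _ (by omega)
  have hft : χ.FactorsThrough (p ^ (ν - 1)) := by
    rw [DirichletCharacter.factorsThrough_iff_ker_unitsMap hd]
    intro u hu
    rw [MonoidHom.mem_ker] at hu ⊢
    have h4 : ((ZMod.castHom hd (ZMod (p ^ (ν - 1)))) (u : ZMod (p ^ ν))) = 1 := by
      have := congrArg (fun v : (ZMod (p ^ (ν - 1)))ˣ => (v : ZMod (p ^ (ν - 1)))) hu
      simpa [ZMod.unitsMap_def] using this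
    have h5 : (ZMod.castHom hd (ZMod (p ^ (ν - 1)))) ((u : ZMod (p ^ ν)) - 1) = 0 := by
      rw [map_sub, h4, map_one, sub_self]
    obtain ⟨t, ht⟩ : ∃ t : ZMod (p ^ ν), (u : ZMod (p ^ ν)) - 1 = t * x := by
      have h6 : (((u : ZMod (p ^ ν)) - 1).val : ZMod (p ^ (ν - 1))) = 0 := by
        rw [ZMod.castHom_apply, ← ZMod.natCast_val] at h5
        exact h5
      rw [ZMod.natCast_eq_zero_iff] at h6
      obtain ⟨t, ht⟩ := h6
      refine ⟨(t : ZMod (p ^ ν)), ?_⟩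
      have h7 : ((((u : ZMod (p ^ ν)) - 1).val : ℕ) : ZMod (p ^ ν)) = (u : ZMod (p ^ ν)) - 1 := by
        rw [ZMod.natCast_val, ZMod.cast_id]
      rw [← h7, ht, hx]
      push_cast
      ring
    have h8 : (u : ZMod (p ^ ν)) = 1 + t * x := by
      rw [← ht]; ring
    ext
    rw [MulChar.coe_toUnitHom, h8, h3 t]
    rfl
  have h9 : χ.conductor ≤ p ^ (ν - 1) := Nat.sInf_le hft
  have h10 : p ^ (ν - 1) < p ^ ν := Nat.pow_lt_pow_right hp.one_lt (by omega)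
  have h11 : χ.conductor = p ^ ν := hχ
  omega

theorem phi : S_PHI := by
  intro p ν m _ hp hp2 hm hν χ hχ
  have hpr : ((p : ZMod (p ^ (ν - m)))) ^ (ν - m) = 0 := by
    have hpn : ((p ^ (ν - m) : ℕ) : ZMod (p ^ (ν - m))) = 0 := ZMod.natCast_self _
    push_cast at hpn; exact hpn
  refine ⟨PH m χ (ν - m), fun y => norm_PS hp hm χ _, fun l n => FF_eq hp hm hν χ hp2 l n, ?_⟩
  intro u hu1 hu2
  -- multiplicativity
  have hmul : ∀ y z : ZMod (p ^ (ν - m)), PH m χ (ν - m) (y + (p : ZMod (p ^ (ν - m))) ^ u * z) =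
      PH m χ (ν - m) y * PH m χ (ν - m) ((p : ZMod (p ^ (ν - m))) ^ u * z) := by
    intro y z
    obtain ⟨a, rfl⟩ := ZMod.intCast_surjective y
    obtain ⟨b, rfl⟩ := ZMod.intCast_surjective z
    have e1 : ((a : ℤ) : ZMod (p ^ (ν - m))) + (p : ZMod (p ^ (ν - m))) ^ u *
        ((b : ℤ) : ZMod (p ^ (ν - m))) = ((a + (p : ℤ) ^ u * b : ℤ) : ZMod (p ^ (ν - m))) := by
      push_cast; ring
    have e2 : (p : ZMod (p ^ (ν - m))) ^ u * ((b : ℤ) : ZMod (p ^ (ν - m))) =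
        (((p : ℤ) ^ u * b : ℤ) : ZMod (p ^ (ν - m))) := by
      push_cast; ring
    rw [e1, e2, PH_int hν, PH_int hν, PH_int hν]
    symm
    apply PS_mul hp hm hν
    have e3 : a + (p : ℤ) ^ u * b - (a + (p : ℤ) ^ u * b) *
        (1 + (p : ℤ) ^ (2 * m) * (a * ((p : ℤ) ^ u * b))) =
        (p : ℤ) ^ (2 * m + u) * (-((a + (p : ℤ) ^ u * b) * (a * b))) := by
      rw [pow_add]; ring
    rw [e3]
    exact (pow_dvd_pow _ (by omega)).mul_right _
  have h0 : PH m χ (ν - m) 0 = 1 := by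
    have := PH_int (p := p) hν χ 0
    rw [Int.cast_zero] at this
    rw [this]
    unfold PS
    simp
  let g : AddChar (ZMod (p ^ (ν - m))) ℂ :=
    { toFun := fun z => PH m χ (ν - m) ((p : ZMod (p ^ (ν - m))) ^ u * z)
      map_zero_eq_one' := by rw [mul_zero]; exact h0
      map_add_eq_mul' := fun a b => by rw [mul_add]; exact hmul _ _ }
  obtain ⟨c, hc⟩ := exists_char g
  have hg : ∀ z, PH m χ (ν - m) ((p : ZMod (p ^ (ν - m))) ^ u * z) = ZMod.stdAddChar (c * z) := hc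
  -- `c` is divisible by `p ^ u`
  have hcu : c * (p : ZMod (p ^ (ν - m))) ^ (ν - m - u) = 0 := by
    apply char_eq_zero
    intro z
    rw [mul_assoc, ← hg, ← mul_assoc, ← pow_add]
    have : u + (ν - m - u) = ν - m := by omega
    rw [this, hpr, zero_mul, h0]
  obtain ⟨A, hA⟩ : ∃ A : ZMod (p ^ (ν - m)), c = (p : ZMod (p ^ (ν - m))) ^ u * A := by
    obtain ⟨a, rfl⟩ := ZMod.intCast_surjective c
    have h1 : ((a * (p : ℤ) ^ (ν - m - u) : ℤ) : ZMod (p ^ (ν - m))) = 0 := by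
      push_cast; exact hcu
    rw [ZMod.intCast_zmod_eq_zero_iff_dvd] at h1
    have h2 : ((p ^ (ν - m) : ℕ) : ℤ) = (p : ℤ) ^ u * (p : ℤ) ^ (ν - m - u) := by
      push_cast
      rw [← pow_add]; congr 1; omega
    rw [h2] at h1
    have h3 : (p : ℤ) ^ (ν - m - u) ≠ 0 := pow_ne_zero _ (by exact_mod_cast hp.ne_zero)
    obtain ⟨b, hb⟩ := (mul_dvd_mul_iff_right h3).1 h1
    refine ⟨((b : ℤ) : ZMod (p ^ (ν - m))), ?_⟩
    rw [hb]; push_cast; ring
  refine ⟨A, ?_, ?_⟩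
  · obtain ⟨a, rfl⟩ := ZMod.intCast_surjective A
    apply isUnit_int hp
    intro hpa
    obtain ⟨a', rfl⟩ := hpa
    have h1 : PH m χ (ν - m) ((p : ZMod (p ^ (ν - m))) ^ (ν - m - 1)) = 1 := by
      have h2 := hg ((p : ZMod (p ^ (ν - m))) ^ (ν - m - 1 - u))
      rw [← pow_add] at h2
      have e1 : u + (ν - m - 1 - u) = ν - m - 1 := by omega
      rw [e1] at h2
      rw [h2, hA]
      have e2 : (p : ZMod (p ^ (ν - m))) ^ u * (((p : ℤ) * a' : ℤ) : ZMod (p ^ (ν - m))) *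
          (p : ZMod (p ^ (ν - m))) ^ (ν - m - 1 - u) = 0 := by
        push_cast
        have e3 : (p : ZMod (p ^ (ν - m))) ^ u * ((p : ZMod (p ^ (ν - m))) *
            ((a' : ℤ) : ZMod (p ^ (ν - m)))) * (p : ZMod (p ^ (ν - m))) ^ (ν - m - 1 - u) =
            ((a' : ℤ) : ZMod (p ^ (ν - m))) * ((p : ZMod (p ^ (ν - m))) ^ u *
            (p : ZMod (p ^ (ν - m))) ^ 1 * (p : ZMod (p ^ (ν - m))) ^ (ν - m - 1 - u)) := by ring
        rw [e3, ← pow_add, ← pow_add]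
        have e4 : u + 1 + (ν - m - 1 - u) = ν - m := by omega
        rw [e4, hpr, mul_zero]
      rw [e2, AddChar.map_zero_eq_one]
    have h3 : (p : ZMod (p ^ (ν - m))) ^ (ν - m - 1) =
        (((p : ℤ) ^ (ν - m - 1) : ℤ) : ZMod (p ^ (ν - m))) := by push_cast; rfl
    rw [h3, PH_int hν] at h1
    apply not_prim hp hp2 (by omega) χ hχ
    rw [← h1]
    unfold PS
    have e5 : (p : ℤ) ^ (ν - 1) * 1 = (p : ℤ) ^ m * (p : ℤ) ^ (ν - m - 1) := by
      rw [mul_one, ← pow_add]; congr 1; omega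
    rw [e5]
  · intro y z
    rw [hmul, hg, hA]
    congr 2
    ring

end Pool.Agent.Y870.R3
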